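import Pool.Agent.H62.BoxMain

set_option autoImplicit false

namespace Pool.Agent.Results.MP_3c3b39_pr.Strict

open Pool.Agent.H62.Box

theorem result (r : ℕ) (hr : 3 ≤ r) : ∃ d : ℕ, 1 ≤ d ∧ ∃ A : ℕ → Set (Fin d → Bool),
    sim r A ⊂ ⋂ t ∈ {t : Br | t.size = r}, t.eval A 0 :=
  ⟨3, by norm_num, tri 0 1 2, strict r hr⟩

end Pool.Agent.Results.MP_3c3b39_pr.Strict
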